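import Pool.Agent.H90.DS.DescMain

/-!
# The standard conjecture of Hodge type descends along surjective morphisms

Let `f : Y ⟶ X` be surjective of relative dimension `r`, let `A` be a divisor on `X` satisfying hard
Lefschetz, and let `B` be a divisor on `Y` such that the decomposition theorem and the relative hard
Lefschetz theorem hold for `f`, `A` and `B` (theorems of Deligne and of Beilinson, Bernstein, Deligne
and Gabber for `A` ample and `B` relatively ample). If homological and numerical equivalence agree
on `Y` and the standard conjecture of Hodge type in codimension `p` holds for `Y` and the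
polarizations `f^* A + t B` for arbitrarily small `t > 0`, then it holds for `X` and `A` in
codimension `p`. Hence the conjecture `A` of Lefschetz type and the conjecture of Hodge type for `Y`
and these polarizations imply the conjectures `D`, `A` and of Hodge type for `X` and `A`.

The divisor `f^* A` does not satisfy hard Lefschetz on `Y`, and the primitive cycles for
`D_t = f^* A + t B` do not converge to those for `f^* A` in an obvious way. The proof: let `x` be a
primitive cycle on `X` of codimension `p`, let `n = dim X`, `m = n + r`, and `q = m - 2 p`. The operator
`D_t ^ (q + 2)` is invertible from codimension `p - 1` to codimension `m - p + 1` on `Y` for almost all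
`t`, and one may solve `D_t ^ (q + 2) y = D_t ^ (q + 1) f^* x` with a cycle `y` which is a Laurent series
in `t`. Then `f^* x - D_t y` is primitive, and one has to show that the leading term of its form is
that of `x`. By means of the sheaf decomposition the coefficients of the polynomial
`D_t ^ (q + 1) f^* x` are bounded by the perverse filtration; the relative hard Lefschetz theorem
shows that `D_t ^ (q + 2)` is strictly compatible with this filtration, which bounds the
coefficients of `y`, and the orthogonality of the filtration shows that the correction vanishes in
the limit.
-/

open CategoryTheory AlgebraicGeometry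

universe u v

namespace Pool.Agent.Results.MP_ffcd14_ag.HodgeTypeDescends

open Pool.Agent.H914 Pool.Agent.H914.VarClass Pool.Agent.H914.VarClass.Obj
  Pool.Agent.H914.WeilCohomology Pool.Agent.H90.BU.Geo Pool.Agent.H90.DS Pool.Agent.W498.Dom

/-- **The standard conjecture of Hodge type descends along surjective morphisms.** -/
theorem result {k : Type u} [Field k] {𝒱 : VarClass k} {ops : CycleOps 𝒱}
    (W : WeilCohomology.{u, v} ops) {X Y : 𝒱.Obj} (f : Y ⟶ X) (r : ℕ) (A : X.Cycles)
    (hA : X.IsCyc 1 A) (B : Y.Cycles) (hB : Y.IsCyc 1 B) (hf : IsSurjective W f B r)
    (hHL : HardLefschetz W X A) (P : PerverseDecomposition W f A B) :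
    (HomEqNum W Y → ∀ p, (Arbitrarily fun t => HodgeTypeIn ops Y (sumDiv ops f A B t) p) →
      HodgeTypeIn ops X A p) ∧
    ((Arbitrarily fun t => LefschetzA W Y (sumDiv ops f A B t) ∧
        HodgeType W Y (sumDiv ops f A B t)) →
      HomEqNum W X ∧ LefschetzA W X A ∧ HodgeType W X A) :=
  ⟨fun hD _ h => descend P hA hB hHL hf hD h, descend_all P hA hB hHL hf⟩

end Pool.Agent.Results.MP_ffcd14_ag.HodgeTypeDescends
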